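import Pool.Agent.H38.EndQ.Tower
import Pool.Agent.H85.EQ.Final
import Pool.Agent.H85.EQ.Upper

/-!
Answer to Q2: which commutative semigroups `S` have endomorphism semigroup (pointwise product)
isomorphic to the additive semigroup of nonnegative rationals.
-/

open Cardinal Pool.Agent.H38.EndQ

namespace Pool.Agent.Results.MP_822856_al.AnswerNonneg

universe u v w

/-- The solutions of Q2 are exactly the commutative monoids with more than one element whose
identity is the only idempotent, in which roots of all orders exist and are unique and in which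
every endomorphism is constant or a power map with a positive rational exponent; there is none of
finite cardinality and there are exactly `2 ^ κ` isomorphism types of every infinite
cardinality `κ`.

For countable semigroups nothing simpler than a quantifier over all maps can decide whether a
semigroup is a solution: the set of tables of solutions is complete coanalytic and so not Borel.
The complexity of the classification of countable solutions up to isomorphism is determined:
isomorphism of extensional relations of every bounded countable rank reduces to it, every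
equivalence relation which reduces to it is Borel, and it has no complete invariants computed by
Borel functions. -/
theorem result :
    (∀ (S : Type u) [CommSemigroup S],
      EndIsNonnegRat S ↔
        (∀ n : ℕ, Function.Bijective fun a : S => ppow a n) ∧ ∃ e : S, (∀ a, a * e = a) ∧
          (∀ a, a * a = a → a = e) ∧ (∃ a, a ≠ e) ∧
          ∀ φ : S →ₙ* S, (∀ a, φ a = e) ∨ ∃ m n : ℕ, ∀ a, ppow (φ a) n = ppow a m) ∧
    (∀ K : Type u, Finite K → IsEmpty (SolNonneg K)) ∧
    (∀ K : Type u, Infinite K → #(Quotient (isoNonneg K)) = 2 ^ #K) ∧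
    CoanalyticComplete NonnegTables ∧ ¬ MeasurableSet NonnegTables ∧
    (∀ (W : Type) [LinearOrder W] [WellFoundedLT W] [Countable W],
      ∃ β : (ℕ → ℕ → Bool) → ℕ → ℕ → ℕ, Measurable β ∧
        (∀ E, IsCode W E → ∃ m : SolNonneg ℕ, table m.1 = β E) ∧
        ∀ E E', IsCode W E → IsCode W E' → ∀ m n : SolNonneg ℕ,
          table m.1 = β E → table n.1 = β E' → ((isoNonneg ℕ).r m n ↔ RelIso E E')) ∧
    (∀ (X : Type v) [MeasurableSpace X] [StandardBorelSpace X] (f : X → ℕ → ℕ → ℕ),
      Measurable f → (∀ x, f x ∈ NonnegTables) →
        MeasurableSet {p : X × X | ∃ m n : SolNonneg ℕ,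
          table m.1 = f p.1 ∧ table n.1 = f p.2 ∧ (isoNonneg ℕ).r m n}) ∧
    (∀ (Y : Type w) [MeasurableSpace Y] [MeasurableSpace.CountablySeparated Y]
      (Φ : (ℕ → ℕ → ℕ) → Y), Measurable Φ →
        ¬ ∀ m n : SolNonneg ℕ, Φ (table m.1) = Φ (table n.1) ↔ (isoNonneg ℕ).r m n) := by
  have hc : CoanalyticComplete NonnegTables := ⟨Pool.Agent.H85.EQ.coan_nonneg, reduce_nonneg⟩
  refine ⟨fun S _ => ⟨char_nonneg_forward, ?_⟩, fun K _ => finite_nonneg K,
    fun K _ => count_nonneg K, hc, hc.not_measurable,
    fun W _ _ _ => tower_nonneg W,
    fun X _ _ f hf hs => Pool.Agent.H85.EQ.upper_nonneg f hf hs,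
    fun Y _ _ Φ hΦ => Pool.Agent.H85.EQ.noinv_nonneg Φ hΦ⟩
  rintro ⟨h1, e, h2, h3, h4, h5⟩
  exact char_nonneg_backward h1 e h2 h3 h4 h5

end Pool.Agent.Results.MP_822856_al.AnswerNonneg
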