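import Pool.Agent.H38.EndQ.Tower
import Pool.Agent.H85.EQ.Final
import Pool.Agent.H85.EQ.Upper

/-!
Answer to Q1: which commutative semigroups `S` have endomorphism semigroup (pointwise product)
isomorphic to the additive semigroup of positive rationals.
-/

open Cardinal Pool.Agent.H38.EndQ

namespace Pool.Agent.Results.MP_822856_al.AnswerPos

universe u v w

/-- The solutions of Q1 are exactly the nonempty commutative semigroups without idempotents in
which roots of all orders exist and are unique and in which every endomorphism is a power map with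
a positive rational exponent; there is none of finite cardinality and there are exactly `2 ^ κ`
isomorphism types of every infinite cardinality `κ`.

For countable semigroups nothing simpler than a quantifier over all maps can decide whether a
semigroup is a solution: the set of tables of solutions is complete coanalytic and so not Borel.
The complexity of the classification of countable solutions up to isomorphism is determined:
isomorphism of extensional relations of every bounded countable rank reduces to it, every
equivalence relation which reduces to it is Borel, and it has no complete invariants computed by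
Borel functions. -/
theorem result :
    (∀ (S : Type u) [CommSemigroup S] [Nonempty S],
      EndIsPosRat S ↔
        (∀ n : ℕ, Function.Bijective fun a : S => ppow a n) ∧ (∀ a : S, a * a ≠ a) ∧
          ∀ φ : S →ₙ* S, ∃ m n : ℕ, ∀ a, ppow (φ a) n = ppow a m) ∧
    (∀ K : Type u, Finite K → IsEmpty (SolPos K)) ∧
    (∀ K : Type u, Infinite K → #(Quotient (isoPos K)) = 2 ^ #K) ∧
    CoanalyticComplete PosTables ∧ ¬ MeasurableSet PosTables ∧
    (∀ (W : Type) [LinearOrder W] [WellFoundedLT W] [Countable W],
      ∃ β : (ℕ → ℕ → Bool) → ℕ → ℕ → ℕ, Measurable β ∧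
        (∀ E, IsCode W E → ∃ m : SolPos ℕ, table m.1 = β E) ∧
        ∀ E E', IsCode W E → IsCode W E' → ∀ m n : SolPos ℕ,
          table m.1 = β E → table n.1 = β E' → ((isoPos ℕ).r m n ↔ RelIso E E')) ∧
    (∀ (X : Type v) [MeasurableSpace X] [StandardBorelSpace X] (f : X → ℕ → ℕ → ℕ),
      Measurable f → (∀ x, f x ∈ PosTables) →
        MeasurableSet {p : X × X | ∃ m n : SolPos ℕ,
          table m.1 = f p.1 ∧ table n.1 = f p.2 ∧ (isoPos ℕ).r m n}) ∧
    (∀ (Y : Type w) [MeasurableSpace Y] [MeasurableSpace.CountablySeparated Y]
      (Φ : (ℕ → ℕ → ℕ) → Y), Measurable Φ →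
        ¬ ∀ m n : SolPos ℕ, Φ (table m.1) = Φ (table n.1) ↔ (isoPos ℕ).r m n) := by
  have hc : CoanalyticComplete PosTables := ⟨Pool.Agent.H85.EQ.coan_pos, reduce_pos⟩
  exact ⟨fun S _ _ => ⟨char_pos_forward, fun h => char_pos_backward h.1 h.2.1 h.2.2⟩,
    fun K _ => finite_pos K, fun K _ => count_pos K, hc, hc.not_measurable,
    fun W _ _ _ => tower_pos W,
    fun X _ _ f hf hs => Pool.Agent.H85.EQ.upper_pos f hf hs,
    fun Y _ _ Φ hΦ => Pool.Agent.H85.EQ.noinv_pos Φ hΦ⟩

end Pool.Agent.Results.MP_822856_al.AnswerPos
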